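import Pool.Agent.Helper31.AH.Orb

/-!
# Project AH: permutations of the colours

The symmetric group acts freely on the Tait colourings of a graph with a vertex of degree `3`.
-/

set_option autoImplicit false

namespace Pool.Agent.Helper31.AH

variable {V : Type} [Fintype V] [DecidableEq V] {G : SimpleGraph V} [DecidableRel G.Adj]

/-- Permutation of the colours of a Tait colouring. -/
theorem Tait.perm {c : G.edgeSet → Fin 3} (hc : Tait c) (π : Equiv.Perm (Fin 3)) :
    Tait fun e => π (c e) := by
  intro d d' h1 h2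
  rw [← hc d d' h1 h2]
  exact π.apply_eq_iff_eq

theorem mc_perm (c : G.edgeSet → Fin 3) (π : Equiv.Perm (Fin 3)) (i : Fin 3) :
    mc (fun e => π (c e)) i = mc c (π.symm i) := by
  unfold mc
  congr 1
  ext v
  simp only [Finset.mem_filter, Finset.mem_univ, true_and]
  refine and_congr_right fun _ => forall_congr' fun d => imp_congr_right fun _ => ?_
  exact Equiv.apply_eq_iff_eq_symm_apply π

/-- The sum over the Tait colourings, by means of the normalized ones. -/
theorem sum_perm {M : Type} [AddCommMonoid M] (R : Rot G) (b : V → G.Dart)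
    (hb : ∀ w, (b w).fst = w) {v : V} (hv : G.degree v = 3)
    [DecidablePred (Tait : (G.edgeSet → Fin 3) → Prop)]
    (f : (G.edgeSet → Fin 3) → M) :
    ∑ c : G.edgeSet → Fin 3 with Tait c, f c =
      ∑ π : Equiv.Perm (Fin 3), ∑ c : G.edgeSet → Fin 3 with
        (Tait c ∧ ∀ i : Fin 3, c (de ((R.σ ^ (i : ℕ)) (b v))) = i), f fun e => π (c e) := by
  rw [← Finset.sum_product']
  symm
  refine Finset.sum_bij (fun y _ => fun e => y.1 (y.2 e)) ?_ ?_ ?_ ?_
  · rintro ⟨π, c⟩ h
    rw [Finset.mem_product, Finset.mem_filter] at h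
    rw [Finset.mem_filter]
    exact ⟨Finset.mem_univ _, h.2.2.1.perm π⟩
  · rintro ⟨π, c⟩ h ⟨π', c'⟩ h' heq
    rw [Finset.mem_product, Finset.mem_filter] at h h'
    have h1 : π = π' := by
      ext i
      have h2 := congrFun heq (de ((R.σ ^ (i : ℕ)) (b v)))
      have h3 : π (c (de ((R.σ ^ (i : ℕ)) (b v)))) = π' (c' (de ((R.σ ^ (i : ℕ)) (b v)))) := h2
      have h4 : c (de ((R.σ ^ (i : ℕ)) (b v))) = i := h.2.2.2 i
      have h5 : c' (de ((R.σ ^ (i : ℕ)) (b v))) = i := h'.2.2.2 i
      rw [h4, h5] at h3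
      rw [h3]
    subst h1
    have h2 : c = c' := by
      funext e
      exact π.injective (congrFun heq e)
    rw [h2]
  · intro c hc
    have hc' : Tait c := (Finset.mem_filter.1 hc).2
    have hinj : Function.Injective fun i : Fin 3 => c (de ((R.σ ^ (i : ℕ)) (b v))) := by
      intro i j hij
      by_contra hne
      exact tait_three R b hb hc' hv i.2 j.2 (fun h => hne (Fin.ext h)) hij
    set π : Equiv.Perm (Fin 3) := Equiv.ofBijective _ (Finite.injective_iff_bijective.1 hinj)
      with hπ
    refine ⟨(π, fun e => π.symm (c e)), ?_, ?_⟩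
    · rw [Finset.mem_product, Finset.mem_filter]
      refine ⟨Finset.mem_univ _, Finset.mem_univ _, hc'.perm π.symm, fun i => ?_⟩
      rw [Equiv.symm_apply_eq]
      rfl
    · funext e
      exact π.apply_symm_apply _
  · intro y _
    rfl

private theorem Sym_card : ∀ i : Fin 3,
    (Finset.univ.filter fun π : Equiv.Perm (Fin 3) => π.symm 0 = i).card = 2 := by decide

theorem sum_symm_zero (F : Fin 3 → ℤ) :
    ∑ π : Equiv.Perm (Fin 3), F (π.symm 0) = 2 * ∑ i, F i := by
  have h1 : ∀ π : Equiv.Perm (Fin 3), F (π.symm 0) = ∑ i, if π.symm 0 = i then F i else 0 := by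
    intro π
    rw [Finset.sum_ite_eq, if_pos (Finset.mem_univ _)]
  rw [Finset.sum_congr rfl fun π _ => h1 π, Finset.sum_comm, Finset.mul_sum]
  refine Finset.sum_congr rfl fun i _ => ?_
  rw [← Finset.sum_filter, Finset.sum_const, Sym_card, nsmul_eq_mul]
  norm_num

/-- The numbers `mc c i` add up to the number of the vertices of degree `2`. -/
theorem sum_mc (b : V → G.Dart) (hb : ∀ w, (b w).fst = w) {c : G.edgeSet → Fin 3}
    (hc : Tait c) : ∑ i, mc c i = k2 G := by
  unfold mc k2
  simp only [Finset.card_filter]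
  rw [Finset.sum_comm]
  refine Finset.sum_congr rfl fun w _ => ?_
  by_cases h : G.degree w = 2
  · have h2 : ∀ i, (∀ d : G.Dart, d.fst = w → c (de d) = i) ↔ c (de (b w)) = i := by
      intro i
      constructor
      · intro h3
        exact h3 _ (hb w)
      · intro h3 d hd
        by_cases h4 : d = b w
        · rw [h4]
          exact h3
        · rw [(hc d (b w) (by rw [hb, hd]) h4).2 (by rw [hd, h])]
          exact h3
    have h3 : ∀ i, (if G.degree w = 2 ∧ ∀ d : G.Dart, d.fst = w → c (de d) = i then 1 else 0) =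
        if c (de (b w)) = i then 1 else 0 := by
      intro i
      by_cases h4 : c (de (b w)) = i
      · rw [if_pos h4, if_pos ⟨h, (h2 i).2 h4⟩]
      · rw [if_neg h4, if_neg (fun h5 => h4 ((h2 i).1 h5.2))]
    rw [Finset.sum_congr rfl fun i _ => h3 i, Finset.sum_ite_eq, if_pos (Finset.mem_univ _),
      if_pos h]
  · rw [if_neg h]
    exact Finset.sum_eq_zero fun i _ => if_neg (fun h4 => h h4.1)

end Pool.Agent.Helper31.AH
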