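import Pool.Agent.Helper31.AH.Eval
import Pool.Agent.Helper31.AH.Sym

/-!
# Project AH: the congruences
-/

set_option autoImplicit false

namespace Pool.Agent.Helper31.AH

variable {V : Type} [Fintype V] [DecidableEq V] {G : SimpleGraph V} [DecidableRel G.Adj]

private theorem Arith_pow (m : ℕ) : (9 : ℤ) ∣ (-2) ^ m - (1 - 3 * m) := by
  induction m with
  | zero => simp
  | succ m ih =>
    obtain ⟨t, ht⟩ := ih
    refine ⟨-2 * t + m, ?_⟩
    have h1 : (-2 : ℤ) ^ m = 1 - 3 * m + 9 * t := by linarith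
    rw [pow_succ, h1]
    push_cast
    ring

private theorem Arith_even (m : ℕ) (hm : 0 < m) : ∃ t : ℤ, (-2 : ℤ) ^ m = 2 * t := by
  obtain ⟨n, rfl⟩ : ∃ n, m = n + 1 := ⟨m - 1, by omega⟩
  exact ⟨-(-2) ^ n, by rw [pow_succ]; ring⟩

private theorem Arith_one (m : ℕ) (h : (2 : ℤ) + (-2) ^ m = 0) : m = 1 := by
  match m, h with
  | 0, h => norm_num at h
  | 1, _ => rfl
  | n + 2, h =>
    exfalso
    have h1 : (-2 : ℤ) ^ (n + 2) = 4 * (-2) ^ n := by
      rw [pow_add]
      ring
    rw [h1] at h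
    omega

private theorem Arith_three : ∀ (n a b c : ℕ), a + b + c = n →
    (-2 : ℤ) ^ a + (-2) ^ b + (-2) ^ c = 0 →
    ∃ j, (a = j + 1 ∧ b = j ∧ c = j) ∨ (a = j ∧ b = j + 1 ∧ c = j) ∨
      (a = j ∧ b = j ∧ c = j + 1) := by
  intro n
  induction n using Nat.strong_induction_on with
  | h n ih =>
    intro a b c hn h
    rcases Nat.eq_zero_or_pos a with ha | ha
    · rcases Nat.eq_zero_or_pos b with hb | hb
      · rw [ha, hb, pow_zero] at h
        have h1 := Arith_one c (by linarith)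
        exact ⟨0, Or.inr (Or.inr ⟨ha, hb, by omega⟩)⟩
      · rcases Nat.eq_zero_or_pos c with hc | hc
        · rw [ha, hc, pow_zero] at h
          have h1 := Arith_one b (by linarith)
          exact ⟨0, Or.inr (Or.inl ⟨ha, by omega, hc⟩)⟩
        · exfalso
          obtain ⟨t, ht⟩ := Arith_even b hb
          obtain ⟨u, hu⟩ := Arith_even c hc
          rw [ha, pow_zero, ht, hu] at h
          omega
    · rcases Nat.eq_zero_or_pos b with hb | hb
      · rcases Nat.eq_zero_or_pos c with hc | hc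
        · rw [hb, hc, pow_zero] at h
          have h1 := Arith_one a (by linarith)
          exact ⟨0, Or.inl ⟨by omega, hb, hc⟩⟩
        · exfalso
          obtain ⟨t, ht⟩ := Arith_even a ha
          obtain ⟨u, hu⟩ := Arith_even c hc
          rw [hb, pow_zero, ht, hu] at h
          omega
      · rcases Nat.eq_zero_or_pos c with hc | hc
        · exfalso
          obtain ⟨t, ht⟩ := Arith_even a ha
          obtain ⟨u, hu⟩ := Arith_even b hb
          rw [hc, pow_zero, ht, hu] at h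
          omega
        · obtain ⟨a', rfl⟩ : ∃ a', a = a' + 1 := ⟨a - 1, by omega⟩
          obtain ⟨b', rfl⟩ : ∃ b', b = b' + 1 := ⟨b - 1, by omega⟩
          obtain ⟨c', rfl⟩ : ∃ c', c = c' + 1 := ⟨c - 1, by omega⟩
          rw [pow_succ, pow_succ, pow_succ] at h
          obtain ⟨j, hj⟩ := ih (a' + b' + c') (by omega) a' b' c' rfl (by linarith)
          exact ⟨j + 1, by omega⟩

/-- The three parts of the theorem. -/
theorem main (R : Rot G) (hG : G.Connected) (hP : R.Planar)
    (hdeg : ∀ v, G.degree v = 2 ∨ G.degree v = 3) (h3 : ∃ v, G.degree v = 3)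
    (hcol : ¬ Col G) :
    (18 : ℤ) ∣ ((k2 G : ℤ) - 1) * (Nat.card {c : G.edgeSet → Fin 3 // Tait c} : ℤ) ∧
    (Nat.card {c : G.edgeSet → Fin 3 // Tait c} = 6 →
      ∀ c : G.edgeSet → Fin 3, Tait c →
        ∃ (j : ℕ) (i : Fin 3), ∀ i', mc c i' = if i' = i then j + 1 else j) := by
  classical
  obtain ⟨v, hv⟩ := h3
  obtain ⟨b, θ, hb, hθ⟩ := exists_theta R hdeg
  have h0 : ∑ c : G.edgeSet → Fin 3 with Tait c, (-2 : ℤ) ^ mc c 0 = 0 := by
    have h1 := sum_tait R hG hP hdeg hcol ![-2, 1, 1] (by simp; norm_num)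
    have h2 : ∀ c : G.edgeSet → Fin 3, ∏ i, (![-2, 1, 1] : Fin 3 → ℝ) i ^ mc c i =
        (((-2 : ℤ) ^ mc c 0 : ℤ) : ℝ) := by
      intro c
      rw [Fin.prod_univ_three]
      simp
    rw [Finset.sum_congr rfl fun c _ => h2 c] at h1
    exact_mod_cast h1
  set T0 : Finset (G.edgeSet → Fin 3) := Finset.univ.filter fun c =>
    (Tait c ∧ ∀ i : Fin 3, c (de ((R.σ ^ (i : ℕ)) (b v))) = i) with hT0
  have hN : Nat.card {c : G.edgeSet → Fin 3 // Tait c} = 6 * T0.card := by
    rw [Nat.card_eq_fintype_card, Fintype.card_subtype, Finset.card_eq_sum_ones,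
      sum_perm R b hb hv fun _ => 1, ← hT0, Finset.sum_const, ← Finset.card_eq_sum_ones,
      Finset.card_univ, smul_eq_mul]
    rfl
  have hsum : ∑ c ∈ T0, ∑ i, (-2 : ℤ) ^ mc c i = 0 := by
    rw [sum_perm R b hb hv, ← hT0, Finset.sum_comm] at h0
    have h1 : ∀ c ∈ T0, ∑ π : Equiv.Perm (Fin 3), (-2 : ℤ) ^ mc (fun e => π (c e)) 0 =
        2 * ∑ i, (-2 : ℤ) ^ mc c i := by
      intro c _
      rw [← sum_symm_zero fun i => (-2 : ℤ) ^ mc c i]
      refine Finset.sum_congr rfl fun π _ => ?_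
      rw [mc_perm]
    rw [Finset.sum_congr rfl h1, ← Finset.mul_sum] at h0
    omega
  constructor
  · have h1 : (9 : ℤ) ∣ ∑ c ∈ T0, (∑ i, (-2 : ℤ) ^ mc c i - (3 - 3 * (k2 G : ℤ))) := by
      refine Finset.dvd_sum fun c hc => ?_
      have h2 := sum_mc b hb (Finset.mem_filter.1 hc).2.1
      rw [Fin.sum_univ_three] at h2 ⊢
      have h4 := Arith_pow (mc c 0)
      have h5 := Arith_pow (mc c 1)
      have h6 := Arith_pow (mc c 2)
      rw [← h2]
      push_cast
      omega
    rw [Finset.sum_sub_distrib, hsum, Finset.sum_const, nsmul_eq_mul, zero_sub, dvd_neg] at h1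
    rw [hN]
    push_cast
    obtain ⟨t, ht⟩ := h1
    refine ⟨-t, ?_⟩
    linear_combination (-2) * ht
  · intro h6 c hc
    have h1 : T0.card = 1 := by omega
    obtain ⟨c0, hc0⟩ := Finset.card_eq_one.1 h1
    rw [hc0, Finset.sum_singleton, Fin.sum_univ_three] at hsum
    obtain ⟨j, hj⟩ := Arith_three _ _ _ _ rfl hsum
    have h2 : ∃ i : Fin 3, ∀ i', mc c0 i' = if i' = i then j + 1 else j := by
      rcases hj with ⟨h7, h8, h9⟩ | ⟨h7, h8, h9⟩ | ⟨h7, h8, h9⟩
      · refine ⟨0, fun i' => ?_⟩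
        fin_cases i'
        · exact h7
        · exact h8
        · exact h9
      · refine ⟨1, fun i' => ?_⟩
        fin_cases i'
        · exact h7
        · exact h8
        · exact h9
      · refine ⟨2, fun i' => ?_⟩
        fin_cases i'
        · exact h7
        · exact h8
        · exact h9
    obtain ⟨i, hi⟩ := h2
    have hinj : Function.Injective fun i : Fin 3 => c (de ((R.σ ^ (i : ℕ)) (b v))) := by
      intro i j hij
      by_contra hne
      exact tait_three R b hb hc hv i.2 j.2 (fun h => hne (Fin.ext h)) hij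
    set π : Equiv.Perm (Fin 3) := Equiv.ofBijective _ (Finite.injective_iff_bijective.1 hinj)
      with hπ
    have h7 : (fun e => π.symm (c e)) ∈ T0 := by
      rw [hT0, Finset.mem_filter]
      refine ⟨Finset.mem_univ _, hc.perm π.symm, fun i => ?_⟩
      rw [Equiv.symm_apply_eq]
      rfl
    rw [hc0, Finset.mem_singleton] at h7
    have h8 : ∀ i', mc c i' = mc c0 (π.symm i') := by
      intro i'
      rw [← mc_perm c0 π, ← h7]
      congr 1
      funext e
      exact (π.apply_symm_apply _).symm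
    refine ⟨j, π i, fun i' => ?_⟩
    rw [h8, hi]
    congr 1
    exact propext (Equiv.symm_apply_eq π)

end Pool.Agent.Helper31.AH
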