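import Mathlib

/-!
# Project AH (MP_028d9b_co): definitions

A plane graph is a graph with a rotation system (a permutation of the darts whose cycles are the sets of the darts starting at the vertices) with
`vertices + faces = edges + 2`.
-/

set_option autoImplicit false

namespace Pool.Agent.Helper31.AH

variable {V : Type} [Fintype V] [DecidableEq V] {G : SimpleGraph V} [DecidableRel G.Adj]

/-- A rotation system: `σ d` is the next dart (in clockwise order) with the same starting vertex. -/
structure Rot (G : SimpleGraph V) where
  σ : Equiv.Perm G.Dart
  fst_eq : ∀ d, (σ d).fst = d.fst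
  cyc : ∀ d d' : G.Dart, d.fst = d'.fst → σ.SameCycle d d'

/-- The face permutation: reverse the dart, then take the next dart. -/
def Rot.face (R : Rot G) : Equiv.Perm G.Dart :=
  (Function.Involutive.toPerm SimpleGraph.Dart.symm SimpleGraph.Dart.symm_symm).trans R.σ

/-- The faces are the cycles of the face permutation. -/
abbrev Rot.Face (R : Rot G) : Type := Quotient (Equiv.Perm.SameCycle.setoid R.face)

/-- Euler's formula for the sphere: `vertices + faces = edges + 2` (for a connected graph this means that the rotation system describes a plane embedding). -/
def Rot.Planar (R : Rot G) : Prop :=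
  Nat.card V + Nat.card R.Face = Nat.card G.edgeSet + 2

/-- The edge of a dart. -/
def de (d : G.Dart) : G.edgeSet := ⟨d.edge, d.edge_mem⟩

/-- `c` is a Tait colouring: at a vertex of degree `2` the two edges have the same colour, at each other vertex different edges have different colours. If all
degrees are `2` or `3`, these are the proper edge colourings with three colours of the cubic multigraph which one gets by suppressing the vertices of degree `2`. -/
def Tait (c : G.edgeSet → Fin 3) : Prop :=
  ∀ d d' : G.Dart, d.fst = d'.fst → d ≠ d' → (c (de d) = c (de d') ↔ G.degree d.fst = 2)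

/-- The number of the vertices of degree `2` whose edges have the colour `i`. -/
def mc (c : G.edgeSet → Fin 3) (i : Fin 3) : ℕ :=
  (Finset.univ.filter fun v : V => G.degree v = 2 ∧ ∀ d : G.Dart, d.fst = v → c (de d) = i).card

/-- The number of the vertices of degree `2`. -/
def k2 (G : SimpleGraph V) [DecidableRel G.Adj] : ℕ :=
  (Finset.univ.filter fun v : V => G.degree v = 2).card

/-- The graph has a proper edge colouring with three colours. -/
def Col (G : SimpleGraph V) : Prop :=
  ∃ c : Sym2 V → Fin 3, ∀ u v w, G.Adj u v → G.Adj u w → v ≠ w → c s(u, v) ≠ c s(u, w)

end Pool.Agent.Helper31.AH
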