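import Pool.Agent.Helper31.AH.Sign

/-!
# Project AH: the evaluations of the state sum

If the plane graph has no proper edge colouring with three colours then the state sum with a matrix with zero diagonal at the vertices of degree `2` vanishes. The state sum
with a diagonal matrix is, up to the sign, the weighted number of the Tait colourings.
-/

set_option autoImplicit false

namespace Pool.Agent.Helper31.AH

variable {V : Type} [Fintype V] [DecidableEq V] {G : SimpleGraph V} [DecidableRel G.Adj]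

private theorem Eval_two0 (Y : Fin 3 → Fin 3 → ℝ) {n : ℕ} (h : n = 2) (f : ℕ → Fin 3) :
    Ten Y n (fun i => f i) = Y (f 0) (f 1) := by
  subst h
  rfl

private theorem Eval_three0 (Y : Fin 3 → Fin 3 → ℝ) {n : ℕ} (h : n = 3) (f : ℕ → Fin 3) :
    Ten Y n (fun i => f i) = (eps (f 0) (f 1) (f 2) : ℝ) := by
  subst h
  rfl

private theorem Eval_two (R : Rot G) (b : V → G.Dart)
    (θ : (Σ w : V, Fin (G.degree w)) ≃ G.edgeSet × Bool)
    (hθ : ∀ w (i : Fin (G.degree w)), (θ ⟨w, i⟩).1 = de ((R.σ ^ (i : ℕ)) (b w)))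
    (Y : Fin 3 → Fin 3 → ℝ) (c : G.edgeSet → Fin 3) (w : V) (h : G.degree w = 2) :
    Ten Y (G.degree w) (fun i => c (θ ⟨w, i⟩).1) =
      Y (c (de ((R.σ ^ 0) (b w)))) (c (de ((R.σ ^ 1) (b w)))) := by
  have h2 : (fun i : Fin (G.degree w) => c (θ ⟨w, i⟩).1) =
      fun i : Fin (G.degree w) => (fun n : ℕ => c (de ((R.σ ^ n) (b w)))) i := by
    funext i
    rw [hθ]
  rw [h2]
  exact Eval_two0 Y h fun n : ℕ => c (de ((R.σ ^ n) (b w)))

private theorem Eval_three (R : Rot G) (b : V → G.Dart)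
    (θ : (Σ w : V, Fin (G.degree w)) ≃ G.edgeSet × Bool)
    (hθ : ∀ w (i : Fin (G.degree w)), (θ ⟨w, i⟩).1 = de ((R.σ ^ (i : ℕ)) (b w)))
    (Y : Fin 3 → Fin 3 → ℝ) (c : G.edgeSet → Fin 3) (w : V) (h : G.degree w = 3) :
    Ten Y (G.degree w) (fun i => c (θ ⟨w, i⟩).1) =
      ((eps (c (de ((R.σ ^ 0) (b w)))) (c (de ((R.σ ^ 1) (b w))))
        (c (de ((R.σ ^ 2) (b w)))) : ℤ) : ℝ) := by
  have h2 : (fun i : Fin (G.degree w) => c (θ ⟨w, i⟩).1) =
      fun i : Fin (G.degree w) => (fun n : ℕ => c (de ((R.σ ^ n) (b w)))) i := by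
    funext i
    rw [hθ]
  rw [h2]
  exact Eval_three0 Y h fun n : ℕ => c (de ((R.σ ^ n) (b w)))

private theorem Eval_eps : ∀ i j k : Fin 3, eps i j k ≠ 0 ↔ (i ≠ j ∧ i ≠ k ∧ j ≠ k) := by decide

/-- A colouring which is proper on the darts. -/
private theorem Eval_col {c : G.edgeSet → Fin 3}
    (h : ∀ d d' : G.Dart, d.fst = d'.fst → d ≠ d' → c (de d) ≠ c (de d')) : Col G := by
  classical
  refine ⟨fun e => if he : e ∈ G.edgeSet then c ⟨e, he⟩ else 0, ?_⟩
  intro u v w huv huw hvw
  have h1 : s(u, v) ∈ G.edgeSet := huv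
  have h2 : s(u, w) ∈ G.edgeSet := huw
  simp only [dif_pos h1, dif_pos h2]
  refine h ⟨(u, v), huv⟩ ⟨(u, w), huw⟩ rfl fun h3 => hvw ?_
  have h4 := congrArg (fun d : G.Dart => d.snd) h3
  exact h4

/-- If `G` is not colourable, the state sum vanishes. -/
theorem St_off (R : Rot G) (hdeg : ∀ v, G.degree v = 2 ∨ G.degree v = 3)
    (b : V → G.Dart) (hb : ∀ w, (b w).fst = w)
    (θ : (Σ w : V, Fin (G.degree w)) ≃ G.edgeSet × Bool)
    (hθ : ∀ w (i : Fin (G.degree w)), (θ ⟨w, i⟩).1 = de ((R.σ ^ (i : ℕ)) (b w)))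
    (hcol : ¬ Col G) (Y : Fin 3 → Fin 3 → ℝ) (hY : ∀ i, Y i i = 0) :
    St θ (fun w => Ten Y (G.degree w)) = 0 := by
  refine Finset.sum_eq_zero fun c _ => ?_
  by_contra hne
  rw [← ne_eq, Finset.prod_ne_zero_iff] at hne
  apply hcol
  apply Eval_col (c := c)
  intro d d' hd hdd
  set w := d.fst with hw
  obtain ⟨i, hi, hid⟩ := orb_exists R b hb d
  obtain ⟨j, hj, hjd⟩ := orb_exists R b hb d'
  rw [← hw] at hi hid
  rw [← hd] at hj hjd
  have hij : i ≠ j := fun h => hdd (by rw [← hid, ← hjd, h])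
  have h1 : Ten Y (G.degree w) (fun i => c (θ ⟨w, i⟩).1) ≠ 0 := hne w (Finset.mem_univ _)
  rw [← hid, ← hjd]
  rcases hdeg w with h | h
  · rw [Eval_two R b θ hθ Y c w h] at h1
    have h3 : c (de ((R.σ ^ 0) (b w))) ≠ c (de ((R.σ ^ 1) (b w))) := by
      intro h4
      apply h1
      rw [h4, hY]
    rw [h] at hi hj
    have h4 : (i = 0 ∧ j = 1) ∨ (i = 1 ∧ j = 0) := by omega
    rcases h4 with ⟨rfl, rfl⟩ | ⟨rfl, rfl⟩
    · exact h3
    · exact h3.symm
  · rw [Eval_three R b θ hθ Y c w h] at h1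
    have h3 : eps (c (de ((R.σ ^ 0) (b w)))) (c (de ((R.σ ^ 1) (b w))))
        (c (de ((R.σ ^ 2) (b w)))) ≠ 0 := by
      intro h4
      apply h1
      rw [h4, Int.cast_zero]
    obtain ⟨h01, h02, h12⟩ := (Eval_eps _ _ _).1 h3
    rw [h] at hi hj
    interval_cases i <;> interval_cases j <;>
      first
        | exact absurd rfl hij
        | exact h01
        | exact h02
        | exact h12
        | exact h01.symm
        | exact h02.symm
        | exact h12.symm

/-- The factor of a vertex of degree `2`. -/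
private def Eval_f2 (b : V → G.Dart) (c : G.edgeSet → Fin 3) (x : Fin 3 → ℝ) (w : V) : ℝ :=
  if G.degree w = 2 then x (c (de (b w))) else 1

private theorem Eval_prod (b : V → G.Dart) (hb : ∀ w, (b w).fst = w)
    {c : G.edgeSet → Fin 3} (hc : Tait c) (x : Fin 3 → ℝ) :
    ∏ w, Eval_f2 b c x w = ∏ i, x i ^ mc c i := by
  have h1 : ∀ w, Eval_f2 b c x w =
      ∏ i, (if G.degree w = 2 ∧ ∀ d : G.Dart, d.fst = w → c (de d) = i then x i else 1) := by
    intro w
    rw [Eval_f2]
    by_cases h : G.degree w = 2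
    · have h2 : ∀ i, (∀ d : G.Dart, d.fst = w → c (de d) = i) ↔ c (de (b w)) = i := by
        intro i
        constructor
        · intro h3
          exact h3 _ (hb w)
        · intro h3 d hd
          by_cases h4 : d = b w
          · rw [h4]
            exact h3
          · rw [(hc d (b w) (by rw [hb, hd]) h4).2 (by rw [hd, h])]
            exact h3
      rw [if_pos h]
      have h3 : ∀ i, (if G.degree w = 2 ∧ ∀ d : G.Dart, d.fst = w → c (de d) = i then x i else 1) =
          if c (de (b w)) = i then x i else 1 := by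
        intro i
        by_cases h4 : c (de (b w)) = i
        · rw [if_pos h4, if_pos ⟨h, (h2 i).2 h4⟩]
        · rw [if_neg h4, if_neg (fun h5 => h4 ((h2 i).1 h5.2))]
      rw [Finset.prod_congr rfl fun i _ => h3 i, Finset.prod_ite_eq, if_pos (Finset.mem_univ _)]
    · rw [if_neg h]
      symm
      exact Finset.prod_eq_one fun i _ => if_neg (fun h4 => h h4.1)
  rw [Finset.prod_congr rfl fun w _ => h1 w, Finset.prod_comm]
  refine Finset.prod_congr rfl fun i _ => ?_
  rw [Finset.prod_ite]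
  simp only [Finset.prod_const, one_pow, mul_one]
  rfl

/-- The state sum with the diagonal matrix with the entries `x`. -/
theorem St_diag (R : Rot G) (hdeg : ∀ v, G.degree v = 2 ∨ G.degree v = 3)
    (b : V → G.Dart) (hb : ∀ w, (b w).fst = w)
    (θ : (Σ w : V, Fin (G.degree w)) ≃ G.edgeSet × Bool)
    (hθ : ∀ w (i : Fin (G.degree w)), (θ ⟨w, i⟩).1 = de ((R.σ ^ (i : ℕ)) (b w)))
    (s : ℤ) (hs : ∀ c : G.edgeSet → Fin 3, Tait c → ∏ w, sgw R b c w = s)
    [DecidablePred (Tait : (G.edgeSet → Fin 3) → Prop)] (x : Fin 3 → ℝ) :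
    St θ (fun w => Ten (Yd x) (G.degree w)) =
      (s : ℝ) * ∑ c : G.edgeSet → Fin 3 with Tait c, ∏ i, x i ^ mc c i := by
  have h0 : ∀ c : G.edgeSet → Fin 3,
      ∏ w, Ten (Yd x) (G.degree w) (fun i => c (θ ⟨w, i⟩).1) =
      if Tait c then (s : ℝ) * ∏ i, x i ^ mc c i else 0 := by
    intro c
    by_cases hc : Tait c
    · rw [if_pos hc, ← Eval_prod b hb hc, ← hs c hc, Int.cast_prod, ← Finset.prod_mul_distrib]
      refine Finset.prod_congr rfl fun w _ => ?_
      rcases hdeg w with h | h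
      · rw [Eval_two R b θ hθ (Yd x) c w h, ← tait_two R b hb hc h, Yd, if_pos rfl, sgw,
          if_neg (show ¬ G.degree w = 3 by omega), Eval_f2, if_pos h, Int.cast_one, one_mul]
        rfl
      · rw [Eval_three R b θ hθ (Yd x) c w h, sgw, if_pos h, Eval_f2, if_neg (by omega), mul_one]
    · rw [if_neg hc]
      by_contra hne
      rw [← ne_eq, Finset.prod_ne_zero_iff] at hne
      apply hc
      intro d d' hd hdd
      set w := d.fst with hw
      obtain ⟨i, hi, hid⟩ := orb_exists R b hb d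
      obtain ⟨j, hj, hjd⟩ := orb_exists R b hb d'
      rw [← hw] at hi hid
      rw [← hd] at hj hjd
      have hij : i ≠ j := fun h => hdd (by rw [← hid, ← hjd, h])
      have h1 := hne w (Finset.mem_univ _)
      rw [← hid, ← hjd]
      rcases hdeg w with h | h
      · rw [Eval_two R b θ hθ (Yd x) c w h] at h1
        have h3 : c (de ((R.σ ^ 0) (b w))) = c (de ((R.σ ^ 1) (b w))) := by
          by_contra h4
          apply h1
          rw [Yd, if_neg h4]
        rw [h] at hi hj
        have h4 : (i = 0 ∧ j = 1) ∨ (i = 1 ∧ j = 0) := by omega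
        have h5 : c (de ((R.σ ^ i) (b w))) = c (de ((R.σ ^ j) (b w))) := by
          rcases h4 with ⟨rfl, rfl⟩ | ⟨rfl, rfl⟩
          · exact h3
          · exact h3.symm
        exact ⟨fun _ => h, fun _ => h5⟩
      · rw [Eval_three R b θ hθ (Yd x) c w h] at h1
        have h3 : eps (c (de ((R.σ ^ 0) (b w)))) (c (de ((R.σ ^ 1) (b w))))
            (c (de ((R.σ ^ 2) (b w)))) ≠ 0 := by
          intro h4
          apply h1
          rw [h4, Int.cast_zero]
        obtain ⟨h01, h02, h12⟩ := (Eval_eps _ _ _).1 h3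
        rw [h] at hi hj
        have h5 : c (de ((R.σ ^ i) (b w))) ≠ c (de ((R.σ ^ j) (b w))) := by
          interval_cases i <;> interval_cases j <;>
            first
              | exact absurd rfl hij
              | exact h01
              | exact h02
              | exact h12
              | exact h01.symm
              | exact h02.symm
              | exact h12.symm
        exact ⟨fun h6 => absurd h6 h5, fun h6 => by omega⟩
  unfold St
  rw [Finset.sum_congr rfl fun c _ => h0 c, ← Finset.sum_filter, Finset.mul_sum]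

/-- If the connected plane graph `G` has no proper edge colouring with three colours, the enumerator of the Tait colourings vanishes on the plane
`x 0 + x 1 + x 2 = 0`. -/
theorem sum_tait (R : Rot G) (hG : G.Connected) (hP : R.Planar)
    (hdeg : ∀ v, G.degree v = 2 ∨ G.degree v = 3) (hcol : ¬ Col G)
    [DecidablePred (Tait : (G.edgeSet → Fin 3) → Prop)] (x : Fin 3 → ℝ)
    (hx : x 0 + x 1 + x 2 = 0) :
    ∑ c : G.edgeSet → Fin 3 with Tait c, ∏ i, x i ^ mc c i = 0 := by
  obtain ⟨b, θ, hb, hθ⟩ := exists_theta R hdeg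
  obtain ⟨s, hs1, hs⟩ := exists_sign R hG hP hdeg b hb
  obtain ⟨g, Y, hg, hY, hgT⟩ := exists_rot x hx
  have h1 := St_off R hdeg b hb θ hθ hcol Y hY
  have h2 := St_diag R hdeg b hb θ hθ s hs x
  have h3 := St_Act θ (fun w => Ten Y (G.degree w)) g hg
  have h4 : (fun w => Act g (Ten Y (G.degree w))) = fun w => Ten (Yd x) (G.degree w) := by
    funext w
    rw [hgT]
  rw [h4, h2, h1] at h3
  rcases mul_eq_zero.1 h3 with h6 | h6
  · exfalso
    have h7 : s = 0 := by exact_mod_cast h6
    rcases hs1 with h8 | h8 <;> omega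
  · exact h6

end Pool.Agent.Helper31.AH
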