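import Mathlib

/-!
# Project AH (MP_028d9b_co): invariance of the state sum

`W` is the set of vertices, `n w` the degree of `w`, `E` the set of edges, `θ` describes the incidences: the `i`-th edge at the vertex `w` is
`(θ ⟨w, i⟩).1`, every edge has two ends. `T w` is the tensor of the vertex `w`.
-/

set_option autoImplicit false

namespace Pool.Agent.Helper31.AH

variable {W E : Type} [Fintype W] [DecidableEq W] [Fintype E] [DecidableEq E] {n : W → ℕ}

/-- The state sum over all colourings of the edges with three colours. -/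
noncomputable def St (θ : (Σ w : W, Fin (n w)) ≃ E × Bool)
    (T : (w : W) → (Fin (n w) → Fin 3) → ℝ) : ℝ :=
  ∑ c : E → Fin 3, ∏ w, T w fun i => c (θ ⟨w, i⟩).1

/-- The action of a matrix on tensors. -/
noncomputable def Act (g : Matrix (Fin 3) (Fin 3) ℝ) {m : ℕ} (T : (Fin m → Fin 3) → ℝ) :
    (Fin m → Fin 3) → ℝ :=
  fun a => ∑ b : Fin m → Fin 3, (∏ i, g (a i) (b i)) * T b

private theorem Inv_edge (g : Matrix (Fin 3) (Fin 3) ℝ) (hg : g.transpose * g = 1)
    (κ : E × Bool → Fin 3) :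
    ∑ c : E → Fin 3, ∏ y : E × Bool, g (c y.1) (κ y) =
      if ∀ e, κ (e, true) = κ (e, false) then 1 else 0 := by
  have h1 : ∀ c : E → Fin 3, ∏ y : E × Bool, g (c y.1) (κ y) =
      ∏ e, (g (c e) (κ (e, true)) * g (c e) (κ (e, false))) := by
    intro c
    rw [Fintype.prod_prod_type]
    refine Finset.prod_congr rfl fun e _ => ?_
    rw [Fintype.prod_bool]
  have h2 : ∑ c : E → Fin 3, ∏ e, (g (c e) (κ (e, true)) * g (c e) (κ (e, false))) =
      ∏ e, ∑ a : Fin 3, (g a (κ (e, true)) * g a (κ (e, false))) := by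
    rw [Finset.prod_univ_sum, Fintype.piFinset_univ]
  have h3 : ∀ i j : Fin 3, ∑ a : Fin 3, g a i * g a j = if i = j then 1 else 0 := by
    intro i j
    have h4 := congrFun (congrFun hg i) j
    rw [Matrix.mul_apply, Matrix.one_apply] at h4
    simpa only [Matrix.transpose_apply] using h4
  rw [Finset.sum_congr rfl fun c _ => h1 c, h2, Finset.prod_congr rfl fun e _ => h3 _ _]
  by_cases h : ∀ e, κ (e, true) = κ (e, false)
  · rw [if_pos h]
    exact Finset.prod_eq_one fun e _ => if_pos (h e)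
  · rw [if_neg h]
    push Not at h
    obtain ⟨e, he⟩ := h
    exact Finset.prod_eq_zero (Finset.mem_univ e) (if_neg he)

/-- The state sum is invariant under orthogonal matrices. -/
theorem St_Act (θ : (Σ w : W, Fin (n w)) ≃ E × Bool) (T : (w : W) → (Fin (n w) → Fin 3) → ℝ)
    (g : Matrix (Fin 3) (Fin 3) ℝ) (hg : g.transpose * g = 1) :
    St θ (fun w => Act g (T w)) = St θ T := by
  unfold St Act
  have h1 : ∀ c : E → Fin 3,
      ∏ w, ∑ b : Fin (n w) → Fin 3, (∏ i, g (c (θ ⟨w, i⟩).1) (b i)) * T w b =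
      ∑ β : (w : W) → Fin (n w) → Fin 3,
        (∏ y : E × Bool, g (c y.1) (β (θ.symm y).1 (θ.symm y).2)) * ∏ w, T w (β w) := by
    intro c
    rw [Finset.prod_univ_sum, Fintype.piFinset_univ]
    refine Finset.sum_congr rfl fun β _ => ?_
    rw [Finset.prod_mul_distrib]
    congr 1
    rw [← Fintype.prod_sigma' (fun w (i : Fin (n w)) => g (c (θ ⟨w, i⟩).1) (β w i))]
    refine Fintype.prod_equiv θ _ _ fun x => ?_
    rw [Equiv.symm_apply_apply]
  rw [Finset.sum_congr rfl fun c _ => h1 c, Finset.sum_comm]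
  have h2 : ∀ β : (w : W) → Fin (n w) → Fin 3,
      ∑ c : E → Fin 3, (∏ y : E × Bool, g (c y.1) (β (θ.symm y).1 (θ.symm y).2)) *
        ∏ w, T w (β w) =
      if ∀ e, β (θ.symm (e, true)).1 (θ.symm (e, true)).2 =
        β (θ.symm (e, false)).1 (θ.symm (e, false)).2 then ∏ w, T w (β w) else 0 := by
    intro β
    rw [← Finset.sum_mul, Inv_edge g hg fun y => β (θ.symm y).1 (θ.symm y).2]
    split_ifs <;> simp
  rw [Finset.sum_congr rfl fun β _ => h2 β, ← Finset.sum_filter]
  symm
  refine Finset.sum_bij' (fun c _ => fun w i => c (θ ⟨w, i⟩).1)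
    (fun β _ => fun e => β (θ.symm (e, true)).1 (θ.symm (e, true)).2) ?_ ?_ ?_ ?_ ?_
  · intro c _
    rw [Finset.mem_filter]
    refine ⟨Finset.mem_univ _, fun e => ?_⟩
    have h3 : ∀ y : E × Bool, θ ⟨(θ.symm y).1, (θ.symm y).2⟩ = y := fun y => by
      rw [Sigma.eta, Equiv.apply_symm_apply]
    simp only [h3]
  · intro β _
    exact Finset.mem_univ _
  · intro c _
    funext e
    have h3 : ∀ y : E × Bool, θ ⟨(θ.symm y).1, (θ.symm y).2⟩ = y := fun y => by
      rw [Sigma.eta, Equiv.apply_symm_apply]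
    simp only [h3]
  · intro β hβ
    rw [Finset.mem_filter] at hβ
    funext w i
    have h4 : ∀ y : E × Bool, β (θ.symm (y.1, true)).1 (θ.symm (y.1, true)).2 =
        β (θ.symm y).1 (θ.symm y).2 := by
      rintro ⟨e, b⟩
      cases b
      · exact hβ.2 e
      · rfl
    have h5 := h4 (θ ⟨w, i⟩)
    rw [Equiv.symm_apply_apply] at h5
    exact h5
  · intro c _
    rfl

end Pool.Agent.Helper31.AH
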