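import Pool.Agent.Helper31.AH.Inv

/-!
# Project AH (MP_028d9b_co): the tensors and the rotation

The tensor of a vertex of degree `3` is the Levi-Civita symbol, the tensor of a vertex of degree `2` is a matrix `Y`. Every diagonal matrix with trace `0` is conjugate,
by a rotation, to a matrix with zeros on the diagonal.
-/

set_option autoImplicit false

namespace Pool.Agent.Helper31.AH

/-- The Levi-Civita symbol. -/
def eps (a b c : Fin 3) : ℤ := if a = b ∨ b = c ∨ a = c then 0 else if b = a + 1 then 1 else -1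

/-- The tensor of a vertex of degree `n`. -/
def Ten (Y : Fin 3 → Fin 3 → ℝ) : (n : ℕ) → (Fin n → Fin 3) → ℝ
  | 2, a => Y (a 0) (a 1)
  | 3, a => (eps (a 0) (a 1) (a 2) : ℝ)
  | _, _ => 0

/-- The diagonal matrix with the entries `x`. -/
def Yd (x : Fin 3 → ℝ) (i j : Fin 3) : ℝ := if i = j then x i else 0

private theorem Mat_sum2 (F : (Fin 2 → Fin 3) → ℝ) : ∑ b, F b = ∑ i, ∑ j, F ![i, j] := by
  rw [← (finTwoArrowEquiv (Fin 3)).symm.sum_comp, Fintype.sum_prod_type]
  rfl

private theorem Mat_sum3 (F : (Fin 3 → Fin 3) → ℝ) :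
    ∑ b, F b = ∑ i, ∑ j, ∑ k, F ![i, j, k] := by
  rw [← (Fin.consEquiv (fun _ : Fin 3 => Fin 3)).sum_comp, Fintype.sum_prod_type]
  refine Finset.sum_congr rfl fun i _ => ?_
  rw [Mat_sum2]
  rfl

private theorem Mat_eps (g : Fin 3 → Fin 3 → ℝ)
    (hdet : g 0 0 * g 1 1 * g 2 2 - g 0 0 * g 1 2 * g 2 1 - g 0 1 * g 1 0 * g 2 2 +
      g 0 1 * g 1 2 * g 2 0 + g 0 2 * g 1 0 * g 2 1 - g 0 2 * g 1 1 * g 2 0 = 1)
    (x y z : Fin 3) :
    ∑ i, ∑ j, ∑ k, g x i * g y j * g z k * (eps i j k : ℝ) = (eps x y z : ℝ) := by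
  simp only [Fin.sum_univ_three]
  fin_cases x <;> fin_cases y <;> fin_cases z <;> simp [eps] <;> linarith [hdet]

/-- A diagonal matrix with trace `0` is conjugate to a matrix with zero diagonal, by a rotation. -/
theorem exists_rot (x : Fin 3 → ℝ) (hx : x 0 + x 1 + x 2 = 0) :
    ∃ (g : Matrix (Fin 3) (Fin 3) ℝ) (Y : Fin 3 → Fin 3 → ℝ), g.transpose * g = 1 ∧
      (∀ i, Y i i = 0) ∧ ∀ n, Act g (Ten Y n) = Ten (Yd x) n := by
  obtain ⟨s, hs⟩ : ∃ s : ℝ, s ^ 2 = 1 / 2 := ⟨√(1 / 2), Real.sq_sqrt (by norm_num)⟩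
  obtain ⟨t, ht⟩ : ∃ t : ℝ, t ^ 2 = 1 / 3 := ⟨√(1 / 3), Real.sq_sqrt (by norm_num)⟩
  have key : ∀ a b : ℝ, ∃ c d : ℝ, c ^ 2 + d ^ 2 = 1 ∧ a * (c ^ 2 - d ^ 2) + b * (2 * c * d) = 0 := by
    intro a b
    by_cases hb : b = 0
    · refine ⟨s, s, by rw [hs]; norm_num, ?_⟩
      rw [hb]
      ring
    · have h1 : 0 < a ^ 2 + b ^ 2 := by positivity
      refine ⟨Real.cos (Real.arctan (-a / b) / 2), Real.sin (Real.arctan (-a / b) / 2),
        Real.cos_sq_add_sin_sq _, ?_⟩
      set φ := Real.arctan (-a / b) with hφ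
      have h2 : Real.cos (φ / 2) ^ 2 - Real.sin (φ / 2) ^ 2 = Real.cos φ := by
        rw [← Real.cos_two_mul']
        congr 1
        ring
      have h3 : 2 * Real.cos (φ / 2) * Real.sin (φ / 2) = Real.sin φ := by
        have h4 := Real.sin_two_mul (φ / 2)
        rw [show 2 * (φ / 2) = φ by ring] at h4
        rw [h4]
        ring
      rw [h2, h3]
      have h5 : Real.tan φ = -a / b := Real.tan_arctan _
      have h6 : Real.cos φ ≠ 0 := (Real.cos_arctan_pos _).ne'
      rw [Real.tan_eq_sin_div_cos, div_eq_div_iff h6 hb] at h5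
      linarith
  obtain ⟨c, d, hcd, hab⟩ := key ((x 0 + x 1) / 2) (t * (x 0 - x 1) / 2)
  set g : Matrix (Fin 3) (Fin 3) ℝ := !![t, c * s + d * (s * t), -d * s + c * (s * t);
    t, -(c * s) + d * (s * t), d * s + c * (s * t);
    t, -2 * (d * (s * t)), -2 * (c * (s * t))] with hg
  have hgg : g.transpose * g = 1 := by
    have hst : (s * t) ^ 2 = 1 / 6 := by
      rw [mul_pow, hs, ht]
      norm_num
    ext i j
    fin_cases i <;> fin_cases j <;>
      simp [hg, Matrix.mul_apply, Fin.sum_univ_three]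
    · linear_combination 3 * ht
    · ring
    · ring
    · ring
    · linear_combination 2 * c ^ 2 * hs + 6 * d ^ 2 * hst + hcd
    · linear_combination -2 * c * d * hs + 6 * c * d * hst
    · ring
    · linear_combination -2 * c * d * hs + 6 * c * d * hst
    · linear_combination 2 * d ^ 2 * hs + 6 * c ^ 2 * hst + hcd
  have hgg' : g * g.transpose = 1 := mul_eq_one_comm.1 hgg
  refine ⟨g, fun i j => ∑ l, g l i * x l * g l j, hgg, ?_, ?_⟩
  · have hst : (s * t) ^ 2 = 1 / 6 := by
      rw [mul_pow, hs, ht]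
      norm_num
    have hx2 : x 2 = -(x 0 + x 1) := by linarith
    intro i
    fin_cases i <;> simp [hg, Fin.sum_univ_three] <;> rw [hx2]
    · ring
    · linear_combination 2 * s ^ 2 * hab - 3 * s ^ 2 * (x 0 + x 1) * d ^ 2 * ht
    · linear_combination -2 * s ^ 2 * hab - 3 * s ^ 2 * (x 0 + x 1) * c ^ 2 * ht
  · intro n
    funext a
    unfold Act
    match n, a with
    | 0, a => simp [Ten]
    | 1, a => simp [Ten]
    | 2, a =>
      rw [Mat_sum2]
      simp only [Ten, Fin.prod_univ_two, Matrix.cons_val_zero, Matrix.cons_val_one]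
      generalize a 0 = p
      generalize a 1 = q
      have h1 : ∀ i j : Fin 3, ∑ k, g i k * g j k = if i = j then 1 else 0 := by
        intro i j
        have h4 := congrFun (congrFun hgg' i) j
        rw [Matrix.mul_apply, Matrix.one_apply] at h4
        simpa only [Matrix.transpose_apply] using h4
      have h2 : ∑ i, ∑ j, g p i * g q j * ∑ l, g l i * x l * g l j =
          ∑ l, x l * (∑ i, g p i * g l i) * (∑ j, g q j * g l j) := by
        simp only [Fin.sum_univ_three]
        ring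
      rw [h2]
      simp only [h1, Yd]
      simp only [mul_ite, mul_one, mul_zero, ite_mul, zero_mul, Finset.sum_ite_eq,
        Finset.mem_univ, if_true]
      by_cases hpq : p = q
      · rw [hpq]
      · rw [if_neg hpq]
        simp [hpq]
    | 3, a =>
      rw [Mat_sum3]
      simp only [Ten, Fin.prod_univ_three, Matrix.cons_val_zero,
        Matrix.cons_val_one, Matrix.cons_val_two, Matrix.head_cons, Matrix.tail_cons]
      refine Mat_eps (fun i j => g i j) ?_ _ _ _
      simp [hg]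
      linear_combination 6 * s ^ 2 * t ^ 2 * hcd + 6 * t ^ 2 * hs + 3 * ht
    | k + 4, a => simp [Ten]

end Pool.Agent.Helper31.AH
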