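import Pool.Agent.Helper31.AH.Theta

/-!
# Project AH: the orbits of the rotation

`b w` is a dart starting at `w`; the darts starting at `w` are `σ ^ i (b w)`, `i < degree w`, without repetition.
-/

set_option autoImplicit false

namespace Pool.Agent.Helper31.AH

variable {V : Type} [Fintype V] [DecidableEq V] {G : SimpleGraph V} [DecidableRel G.Adj]

theorem orb_bij (R : Rot G) (b : V → G.Dart) (hb : ∀ w, (b w).fst = w) :
    Function.Bijective
      fun x : (Σ w : V, Fin (G.degree w)) => (R.σ ^ (x.2 : ℕ)) (b x.1) := by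
  classical
  rw [Fintype.bijective_iff_surjective_and_card]
  refine ⟨?_, ?_⟩
  · intro d
    obtain ⟨i, hi, hd⟩ := exists_pow R (hb d.fst)
    rw [hb] at hi
    exact ⟨⟨d.fst, ⟨i, hi⟩⟩, hd⟩
  · rw [Fintype.card_sigma, G.dart_card_eq_sum_degrees]
    exact Finset.sum_congr rfl fun v _ => Fintype.card_fin _

theorem orb_inj (R : Rot G) (b : V → G.Dart) (hb : ∀ w, (b w).fst = w) {w : V} {i j : ℕ}
    (hi : i < G.degree w) (hj : j < G.degree w) (h : (R.σ ^ i) (b w) = (R.σ ^ j) (b w)) :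
    i = j := by
  have h1 := (orb_bij R b hb).1 (a₁ := ⟨w, ⟨i, hi⟩⟩) (a₂ := ⟨w, ⟨j, hj⟩⟩) h
  have h2 := eq_of_heq (Sigma.mk.inj_iff.1 h1).2
  exact congrArg Fin.val h2

theorem orb_exists (R : Rot G) (b : V → G.Dart) (hb : ∀ w, (b w).fst = w) (d : G.Dart) :
    ∃ i < G.degree d.fst, (R.σ ^ i) (b d.fst) = d := by
  obtain ⟨i, hi, hd⟩ := exists_pow R (hb d.fst)
  rw [hb] at hi
  exact ⟨i, hi, hd⟩

theorem orb_deg (R : Rot G) (b : V → G.Dart) (hb : ∀ w, (b w).fst = w) (w : V) :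
    (R.σ ^ G.degree w) (b w) = b w := by
  obtain ⟨j, hj, h⟩ := orb_exists R b hb ((R.σ ^ G.degree w) (b w))
  rw [pow_fst, hb] at hj h
  rcases Nat.eq_zero_or_pos j with h0 | h0
  · rw [h0] at h
    exact h.symm
  · exfalso
    have h1 : (R.σ ^ (G.degree w - j)) (b w) = (R.σ ^ 0) (b w) := by
      have h2 : (R.σ ^ j) ((R.σ ^ (G.degree w - j)) (b w)) = (R.σ ^ j) (b w) := by
        rw [← Equiv.Perm.mul_apply, ← pow_add, h, Nat.add_sub_cancel' hj.le]
      exact (R.σ ^ j).injective h2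
    have h2 := orb_inj R b hb (w := w) (i := G.degree w - j) (j := 0) (by omega) (by omega) h1
    omega

theorem orb_sum {M : Type} [AddCommMonoid M] (R : Rot G) (b : V → G.Dart)
    (hb : ∀ w, (b w).fst = w) (g : G.Dart → M) :
    ∑ d, g d = ∑ w, ∑ i ∈ Finset.range (G.degree w), g ((R.σ ^ i) (b w)) := by
  rw [← (Equiv.ofBijective _ (orb_bij R b hb)).sum_comp, Fintype.sum_sigma]
  refine Finset.sum_congr rfl fun w _ => ?_
  rw [Finset.sum_range]
  rfl

theorem orb_sum_at {M : Type} [AddCommMonoid M] (R : Rot G) (b : V → G.Dart)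
    (hb : ∀ w, (b w).fst = w) (g : G.Dart → M) (v : V) :
    ∑ d : G.Dart with d.fst = v, g d = ∑ i ∈ Finset.range (G.degree v), g ((R.σ ^ i) (b v)) := by
  rw [Finset.sum_filter, orb_sum R b hb, Finset.sum_eq_single v]
  · refine Finset.sum_congr rfl fun i _ => ?_
    rw [pow_fst, hb, if_pos rfl]
  · intro w _ hw
    refine Finset.sum_eq_zero fun i _ => ?_
    rw [pow_fst, hb, if_neg hw]
  · intro h
    exact absurd (Finset.mem_univ v) h

/-- A Tait colouring is constant at the vertices of degree `2`. -/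
theorem tait_two (R : Rot G) (b : V → G.Dart) (hb : ∀ w, (b w).fst = w) {c : G.edgeSet → Fin 3}
    (hc : Tait c) {w : V} (hw : G.degree w = 2) :
    c (de ((R.σ ^ 0) (b w))) = c (de ((R.σ ^ 1) (b w))) := by
  have h1 : (R.σ ^ 0) (b w) ≠ (R.σ ^ 1) (b w) := fun h => by
    have := orb_inj R b hb (w := w) (i := 0) (j := 1) (by omega) (by omega) h
    omega
  exact (hc _ _ (by rw [pow_fst, pow_fst]) h1).2 (by rw [pow_fst, hb, hw])

/-- A Tait colouring has different colours at the vertices of degree `3`. -/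
theorem tait_three (R : Rot G) (b : V → G.Dart) (hb : ∀ w, (b w).fst = w)
    {c : G.edgeSet → Fin 3} (hc : Tait c) {w : V} (hw : G.degree w = 3) {i j : ℕ} (hi : i < 3)
    (hj : j < 3) (hij : i ≠ j) :
    c (de ((R.σ ^ i) (b w))) ≠ c (de ((R.σ ^ j) (b w))) := by
  have h1 : (R.σ ^ i) (b w) ≠ (R.σ ^ j) (b w) := fun h =>
    hij (orb_inj R b hb (w := w) (by omega) (by omega) h)
  intro h
  have h2 := (hc _ _ (by rw [pow_fst, pow_fst]) h1).1 h
  rw [pow_fst, hb, hw] at h2
  omega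

end Pool.Agent.Helper31.AH
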