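import Pool.Agent.Helper31.AH.Theta

/-!
# Project AH: potentials on the faces

In a connected plane graph an element of the cycle space over the field with two elements is the coboundary of a function on the faces.
-/

set_option autoImplicit false

namespace Pool.Agent.Helper31.AH

variable {V : Type} [Fintype V] [DecidableEq V] {G : SimpleGraph V} [DecidableRel G.Adj]

/-- A choice of a dart for every edge, and the bijection `edges × Bool → darts`. -/
theorem exists_dart (G : SimpleGraph V) [DecidableRel G.Adj] :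
    ∃ r : G.edgeSet → G.Dart, (∀ e, de (r e) = e) ∧
      Function.Bijective fun y : G.edgeSet × Bool => if y.2 then r y.1 else (r y.1).symm := by
  have hr : ∀ e : G.edgeSet, ∃ d : G.Dart, de d = e := by
    rintro ⟨e, he⟩
    induction e with
    | h u v => exact ⟨⟨(u, v), he⟩, rfl⟩
  choose r hr using hr
  refine ⟨r, hr, ?_⟩
  have hHs : Function.Surjective
      fun y : G.edgeSet × Bool => if y.2 then r y.1 else (r y.1).symm := by
    intro d
    have h1 : (r (de d)).edge = d.edge := congrArg Subtype.val (hr (de d))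
    rcases (SimpleGraph.dart_edge_eq_iff _ _).1 h1 with h2 | h2
    · exact ⟨(de d, true), h2⟩
    · refine ⟨(de d, false), ?_⟩
      show (r (de d)).symm = d
      rw [h2, SimpleGraph.Dart.symm_symm]
  rw [Fintype.bijective_iff_surjective_and_card]
  refine ⟨hHs, ?_⟩
  rw [Fintype.card_prod, Fintype.card_bool, G.dart_card_eq_twice_card_edges,
    SimpleGraph.edgeFinset_card, mul_comm]

private theorem Pot_rank {m n : Type} [Fintype m] [DecidableEq m] [Fintype n] [DecidableEq n]
    (A : Matrix m n (ZMod 2))
    (h : ∀ x, A.mulVec x = 0 → ∃ a : ZMod 2, x = fun _ => a) : Fintype.card n ≤ A.rank + 1 := by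
  have h1 := LinearMap.finrank_range_add_finrank_ker A.mulVecLin
  rw [Module.finrank_fintype_fun_eq_card] at h1
  have h2 : LinearMap.ker A.mulVecLin ≤ Submodule.span (ZMod 2) {fun _ : n => (1 : ZMod 2)} := by
    intro x hx
    obtain ⟨a, ha⟩ := h x (by simpa [LinearMap.mem_ker] using hx)
    rw [Submodule.mem_span_singleton]
    refine ⟨a, ?_⟩
    rw [ha]
    funext i
    simp
  have h3 : Module.finrank (ZMod 2) (LinearMap.ker A.mulVecLin) ≤ 1 :=
    (Submodule.finrank_mono h2).trans
      ((finrank_span_le_card ({fun _ : n => (1 : ZMod 2)} : Set (n → ZMod 2))).trans (by simp))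
  have h4 : A.rank = Module.finrank (ZMod 2) (LinearMap.range A.mulVecLin) := rfl
  omega

private theorem Pot_exact {V' E' F' : Type} [Fintype V'] [DecidableEq V'] [Fintype E']
    [DecidableEq E'] [Fintype F'] [DecidableEq F'] (B : Matrix V' E' (ZMod 2))
    (C : Matrix E' F' (ZMod 2)) (h : ∀ ψ, B.mulVec (C.mulVec ψ) = 0)
    (hr : Fintype.card E' ≤ B.rank + C.rank) (f : E' → ZMod 2) (hf : B.mulVec f = 0) :
    ∃ ψ, f = C.mulVec ψ := by
  have h1 := LinearMap.finrank_range_add_finrank_ker B.mulVecLin
  rw [Module.finrank_fintype_fun_eq_card] at h1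
  have h2 : LinearMap.range C.mulVecLin ≤ LinearMap.ker B.mulVecLin := by
    rintro _ ⟨ψ, rfl⟩
    rw [LinearMap.mem_ker]
    exact h ψ
  have h3 : LinearMap.range C.mulVecLin = LinearMap.ker B.mulVecLin := by
    apply Submodule.eq_of_le_of_finrank_le h2
    have h4 : B.rank = Module.finrank (ZMod 2) (LinearMap.range B.mulVecLin) := rfl
    have h5 : C.rank = Module.finrank (ZMod 2) (LinearMap.range C.mulVecLin) := rfl
    omega
  have h6 : f ∈ LinearMap.range C.mulVecLin := by
    rw [h3, LinearMap.mem_ker]
    exact hf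
  obtain ⟨ψ, hψ⟩ := h6
  exact ⟨ψ, hψ.symm⟩

/-- A function which is constant along the edges of a connected graph is constant. -/
theorem const_of_adj {α : Type} (hG : G.Connected) (g : V → α) (h : ∀ u v, G.Adj u v → g u = g v)
    (u v : V) : g u = g v := by
  obtain ⟨p⟩ := hG.preconnected u v
  induction p with
  | nil => rfl
  | cons hadj _ ih => exact (h _ _ hadj).trans ih

/-- In a connected plane graph a flow modulo `2` has a potential. -/
theorem exists_pot (R : Rot G) (hG : G.Connected) (hP : R.Planar) (f : G.edgeSet → ZMod 2)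
    (hf : ∀ v, ∑ d : G.Dart with d.fst = v, f (de d) = 0) :
    ∃ ψ : G.Dart → ZMod 2, (∀ d, ψ d.symm = ψ (R.σ d)) ∧ ∀ d, f (de d) = ψ d + ψ d.symm := by
  classical
  obtain ⟨r, hr, hH⟩ := exists_dart G
  set H : G.edgeSet × Bool → G.Dart := fun y => if y.2 then r y.1 else (r y.1).symm with hHdef
  have hdart : ∀ d : G.Dart, ∃ e, d = r e ∨ d = (r e).symm := by
    intro d
    obtain ⟨⟨e, b⟩, h⟩ := hH.2 d
    refine ⟨e, ?_⟩
    cases b
    · exact Or.inr h.symm
    · exact Or.inl h.symm
  have hdes : ∀ d : G.Dart, de d.symm = de d := fun d => Subtype.ext (SimpleGraph.Dart.edge_symm _)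
  have hch : ∀ x : ZMod 2, x + x = 0 := by decide
  -- the boundary matrix
  set B : Matrix V G.edgeSet (ZMod 2) := fun v e =>
    (if (r e).fst = v then 1 else 0) + (if (r e).symm.fst = v then 1 else 0) with hB
  set C : Matrix G.edgeSet R.Face (ZMod 2) := fun e φ =>
    (if (Quotient.mk _ (r e) : R.Face) = φ then 1 else 0) +
      (if (Quotient.mk _ (r e).symm : R.Face) = φ then 1 else 0) with hC
  have hBf : ∀ (g : G.edgeSet → ZMod 2) v,
      B.mulVec g v = ∑ d : G.Dart with d.fst = v, g (de d) := by
    intro g v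
    rw [Finset.sum_filter, ← (Equiv.ofBijective H hH).sum_comp, Fintype.sum_prod_type]
    show ∑ e, B v e * g e = _
    refine Finset.sum_congr rfl fun e _ => ?_
    rw [Fintype.sum_bool]
    have h1 : (Equiv.ofBijective H hH) (e, true) = r e := rfl
    have h2 : (Equiv.ofBijective H hH) (e, false) = (r e).symm := rfl
    rw [h1, h2, hdes, hr, hB]
    simp only [add_mul, ite_mul, one_mul, zero_mul]
  have hCf : ∀ (ψ : R.Face → ZMod 2) e,
      C.mulVec ψ e = ψ (Quotient.mk _ (r e)) + ψ (Quotient.mk _ (r e).symm) := by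
    intro ψ e
    show ∑ φ, C e φ * ψ φ = _
    rw [hC]
    simp only [add_mul, ite_mul, one_mul, zero_mul, Finset.sum_add_distrib,
      Finset.sum_ite_eq, Finset.mem_univ, if_true]
  -- functions on the faces
  have hface : ∀ (ψ : R.Face → ZMod 2) (d : G.Dart),
      ψ (Quotient.mk _ d.symm) = ψ (Quotient.mk _ (R.σ d)) := by
    intro ψ d
    congr 1
    apply Quotient.sound
    refine ⟨1, ?_⟩
    rw [zpow_one]
    show R.σ (d.symm.symm) = R.σ d
    rw [SimpleGraph.Dart.symm_symm]
  have hCd : ∀ (ψ : R.Face → ZMod 2) (d : G.Dart),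
      C.mulVec ψ (de d) = ψ (Quotient.mk _ d) + ψ (Quotient.mk _ d.symm) := by
    intro ψ d
    obtain ⟨e, h | h⟩ := hdart d
    · rw [h, hr, hCf]
    · rw [h, hdes, hr, hCf, SimpleGraph.Dart.symm_symm, add_comm]
  have hBC : ∀ ψ, B.mulVec (C.mulVec ψ) = 0 := by
    intro ψ
    funext v
    rw [hBf]
    show _ = (0 : ZMod 2)
    have h1 : ∀ d : G.Dart, C.mulVec ψ (de d) =
        ψ (Quotient.mk _ d) + ψ (Quotient.mk _ (R.σ d)) := fun d => by rw [hCd, hface ψ d]
    rw [Finset.sum_congr rfl fun d _ => h1 d, Finset.sum_add_distrib]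
    have h2 : ∑ d : G.Dart with d.fst = v, ψ (Quotient.mk _ (R.σ d)) =
        ∑ d : G.Dart with d.fst = v, ψ (Quotient.mk _ d) := by
      rw [Finset.sum_filter, Finset.sum_filter]
      rw [← Equiv.sum_comp R.σ fun d => if d.fst = v then ψ (Quotient.mk _ d) else 0]
      refine Finset.sum_congr rfl fun d _ => ?_
      rw [R.fst_eq]
    rw [h2]
    exact hch _
  -- ranks
  have hrB : Fintype.card V ≤ B.rank + 1 := by
    rw [← Matrix.rank_transpose]
    apply Pot_rank
    intro x hx
    have h1 : ∀ e, x (r e).fst = x (r e).symm.fst := by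
      intro e
      have h2 := congrFun hx e
      have h3 : B.transpose.mulVec x e = x (r e).fst + x (r e).symm.fst := by
        show ∑ v, B v e * x v = _
        rw [hB]
        simp only [add_mul, ite_mul, one_mul, zero_mul, Finset.sum_add_distrib,
          Finset.sum_ite_eq, Finset.mem_univ, if_true]
      rw [h3] at h2
      have h4 : ∀ a b : ZMod 2, a + b = 0 → a = b := by decide
      exact h4 _ _ h2
    have h2 : ∀ u v, G.Adj u v → x u = x v := by
      intro u v huv
      obtain ⟨e, h | h⟩ := hdart ⟨(u, v), huv⟩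
      · have h3 := h1 e
        rw [← h] at h3
        exact h3
      · have h3 := h1 e
        rw [← h] at h3
        have h4 : r e = SimpleGraph.Dart.symm ⟨(u, v), huv⟩ := by
          rw [h, SimpleGraph.Dart.symm_symm]
        rw [h4] at h3
        exact h3.symm
    obtain ⟨v0⟩ := hG.nonempty
    exact ⟨x v0, funext fun v => const_of_adj hG x h2 v v0⟩
  have hrC : Fintype.card R.Face ≤ C.rank + 1 := by
    apply Pot_rank
    intro x hx
    set g : G.Dart → ZMod 2 := fun d => x (Quotient.mk _ d) with hg
    have h1 : ∀ d, g d = g d.symm := by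
      intro d
      have h2 := congrFun hx (de d)
      rw [hCd] at h2
      have h4 : ∀ a b : ZMod 2, a + b = 0 → a = b := by decide
      exact h4 _ _ h2
    have h2 : ∀ d, g (R.σ d) = g d := by
      intro d
      rw [h1 d]
      exact (hface x d).symm
    have h3 : ∀ d d' : G.Dart, d.fst = d'.fst → g d = g d' := by
      intro d d' h
      obtain ⟨j, hj⟩ := (R.cyc d d' h).exists_nat_pow_eq
      rw [← hj]
      clear hj
      induction j with
      | zero => rfl
      | succ j ih => rw [pow_succ', Equiv.Perm.mul_apply, h2, ih]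
    by_cases hne : Nonempty G.Dart
    · obtain ⟨d0⟩ := hne
      set y : V → ZMod 2 := fun v => if h : ∃ d : G.Dart, d.fst = v then g h.choose else g d0
        with hy
      have h4 : ∀ d : G.Dart, y d.fst = g d := by
        intro d
        have h5 : ∃ d' : G.Dart, d'.fst = d.fst := ⟨d, rfl⟩
        rw [hy]
        simp only
        rw [dif_pos h5]
        exact h3 _ _ h5.choose_spec
      have h5 : ∀ u v, G.Adj u v → y u = y v := by
        intro u v huv
        have h6 := h4 ⟨(u, v), huv⟩
        have h7 := h4 (SimpleGraph.Dart.symm ⟨(u, v), huv⟩)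
        rw [← h1] at h7
        exact h6.trans h7.symm
      refine ⟨g d0, funext fun φ => ?_⟩
      induction φ using Quotient.inductionOn with
      | h d =>
        show g d = g d0
        rw [← h4, ← h4]
        exact const_of_adj hG y h5 _ _
    · refine ⟨0, funext fun φ => ?_⟩
      induction φ using Quotient.inductionOn with
      | h d => exact absurd ⟨d⟩ hne
  have hcard : Fintype.card G.edgeSet ≤ B.rank + C.rank := by
    have h1 := hP
    unfold Rot.Planar at h1
    rw [Nat.card_eq_fintype_card, Nat.card_eq_fintype_card, Nat.card_eq_fintype_card] at h1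
    omega
  have hBf0 : B.mulVec f = 0 := by
    funext v
    rw [hBf]
    exact hf v
  obtain ⟨ψ, hψ⟩ := Pot_exact B C hBC hcard f hBf0
  refine ⟨fun d => ψ (Quotient.mk _ d), fun d => hface ψ d, fun d => ?_⟩
  rw [hψ]
  exact hCd ψ d

end Pool.Agent.Helper31.AH
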