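import Pool.Agent.Helper31.AH.Pot
import Pool.Agent.Helper31.AH.Orb
import Pool.Agent.Helper31.AH.Mat

/-!
# Project AH: the sign of a Tait colouring

In a plane graph the product of the signs of the vertices is the same for all Tait colourings.
-/

set_option autoImplicit false

namespace Pool.Agent.Helper31.AH

variable {V : Type} [Fintype V] [DecidableEq V] {G : SimpleGraph V} [DecidableRel G.Adj]

/-- The sign of a vertex. -/
def sgw (R : Rot G) (b : V → G.Dart) (c : G.edgeSet → Fin 3) (w : V) : ℤ :=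
  if G.degree w = 3 then
    eps (c (de ((R.σ ^ 0) (b w)))) (c (de ((R.σ ^ 1) (b w)))) (c (de ((R.σ ^ 2) (b w))))
  else 1

/-- The colours as elements of the Klein four group. -/
private def Sign_cv (i : Fin 3) : ZMod 2 × ZMod 2 :=
  if i = 0 then (1, 0) else if i = 1 then (0, 1) else (1, 1)

private def Sign_col (x : ZMod 2 × ZMod 2) : Fin 3 :=
  if x = (1, 0) then 0 else if x = (0, 1) then 1 else 2

private def Sign_s (p q r : ZMod 2 × ZMod 2) : ℤ :=
  eps (Sign_col (p + q)) (Sign_col (q + r)) (Sign_col (r + p))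

private def Sign_u (q r : ZMod 2 × ZMod 2) : ℤ :=
  if q = 0 ∨ r = 0 ∨ q = r then 0 else Sign_s 0 q r

private theorem Sign_anti : ∀ q r, Sign_u q r + Sign_u r q = 0 := by decide

private theorem Sign_cyc : ∀ p q r, p ≠ q → q ≠ r → r ≠ p →
    (Sign_u p q + Sign_u q r + Sign_u r p - Sign_s p q r) % 4 = 0 := by decide

private theorem Sign_col_cv : ∀ i, Sign_col (Sign_cv i) = i := by decide

private theorem Sign_cv_ne : ∀ i, Sign_cv i ≠ 0 := by decide

private theorem Sign_two : ∀ i : Fin 3, (Sign_cv i).1 + (Sign_cv i).1 = 0 ∧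
    (Sign_cv i).2 + (Sign_cv i).2 = 0 := by decide

private theorem Sign_three : ∀ i j k : Fin 3, i ≠ j → i ≠ k → j ≠ k →
    (Sign_cv i).1 + (Sign_cv j).1 + (Sign_cv k).1 = 0 ∧
    (Sign_cv i).2 + (Sign_cv j).2 + (Sign_cv k).2 = 0 := by decide

private theorem Sign_eps : ∀ i j k : Fin 3, i ≠ j → i ≠ k → j ≠ k →
    eps i j k = 1 ∨ eps i j k = -1 := by decide

private theorem Sign_pot (R : Rot G) (hG : G.Connected) (hP : R.Planar)
    (hdeg : ∀ v, G.degree v = 2 ∨ G.degree v = 3) (b : V → G.Dart) (hb : ∀ w, (b w).fst = w)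
    {c : G.edgeSet → Fin 3} (hc : Tait c) :
    ∃ ψ : G.Dart → ZMod 2 × ZMod 2, (∀ d, ψ d.symm = ψ (R.σ d)) ∧
      ∀ d, Sign_cv (c (de d)) = ψ d + ψ d.symm := by
  obtain ⟨ψ1, h1, h1'⟩ := exists_pot R hG hP (fun e => (Sign_cv (c e)).1) fun v => by
    rw [orb_sum_at R b hb]
    rcases hdeg v with h | h
    · rw [h, Finset.sum_range_succ, Finset.sum_range_succ, Finset.sum_range_zero, zero_add,
        tait_two R b hb hc h]
      exact (Sign_two _).1
    · rw [h, Finset.sum_range_succ, Finset.sum_range_succ, Finset.sum_range_succ,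
        Finset.sum_range_zero, zero_add]
      exact (Sign_three _ _ _ (tait_three R b hb hc h (by omega) (by omega) (by omega))
        (tait_three R b hb hc h (by omega) (by omega) (by omega))
        (tait_three R b hb hc h (by omega) (by omega) (by omega))).1
  obtain ⟨ψ2, h2, h2'⟩ := exists_pot R hG hP (fun e => (Sign_cv (c e)).2) fun v => by
    rw [orb_sum_at R b hb]
    rcases hdeg v with h | h
    · rw [h, Finset.sum_range_succ, Finset.sum_range_succ, Finset.sum_range_zero, zero_add,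
        tait_two R b hb hc h]
      exact (Sign_two _).2
    · rw [h, Finset.sum_range_succ, Finset.sum_range_succ, Finset.sum_range_succ,
        Finset.sum_range_zero, zero_add]
      exact (Sign_three _ _ _ (tait_three R b hb hc h (by omega) (by omega) (by omega))
        (tait_three R b hb hc h (by omega) (by omega) (by omega))
        (tait_three R b hb hc h (by omega) (by omega) (by omega))).2
  exact ⟨fun d => (ψ1 d, ψ2 d), fun d => Prod.ext (h1 d) (h2 d),
    fun d => Prod.ext (h1' d) (h2' d)⟩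

private theorem Sign_sum (R : Rot G) (hG : G.Connected) (hP : R.Planar)
    (hdeg : ∀ v, G.degree v = 2 ∨ G.degree v = 3) (b : V → G.Dart) (hb : ∀ w, (b w).fst = w)
    {c : G.edgeSet → Fin 3} (hc : Tait c) :
    (4 : ℤ) ∣ ∑ w, if G.degree w = 3 then sgw R b c w else 0 := by
  obtain ⟨ψ, hψ, hψ'⟩ := Sign_pot R hG hP hdeg b hb hc
  have h0 : ∑ d : G.Dart, Sign_u (ψ d) (ψ (R.σ d)) = 0 := by
    have h1 : ∑ d : G.Dart, Sign_u (ψ d) (ψ d.symm) = ∑ d : G.Dart, Sign_u (ψ d.symm) (ψ d) := by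
      rw [← Equiv.sum_comp (Function.Involutive.toPerm SimpleGraph.Dart.symm
        SimpleGraph.Dart.symm_symm) fun d : G.Dart => Sign_u (ψ d) (ψ d.symm)]
      refine Finset.sum_congr rfl fun d _ => ?_
      show Sign_u (ψ d.symm) (ψ d.symm.symm) = _
      rw [SimpleGraph.Dart.symm_symm]
    have h2 : ∑ d : G.Dart, Sign_u (ψ d) (ψ d.symm) + ∑ d : G.Dart, Sign_u (ψ d.symm) (ψ d) = 0 := by
      rw [← Finset.sum_add_distrib]
      exact Finset.sum_eq_zero fun d _ => Sign_anti _ _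
    have h3 : ∑ d : G.Dart, Sign_u (ψ d) (ψ (R.σ d)) = ∑ d : G.Dart, Sign_u (ψ d) (ψ d.symm) :=
      Finset.sum_congr rfl fun d _ => by rw [hψ]
    omega
  rw [orb_sum R b hb] at h0
  have hs : ∀ (i : ℕ) (w : V), R.σ ((R.σ ^ i) (b w)) = (R.σ ^ (i + 1)) (b w) := fun i w => by
    rw [pow_succ', Equiv.Perm.mul_apply]
  have h1 : (4 : ℤ) ∣ ∑ w, ((∑ i ∈ Finset.range (G.degree w),
      Sign_u (ψ ((R.σ ^ i) (b w))) (ψ (R.σ ((R.σ ^ i) (b w))))) -
      if G.degree w = 3 then sgw R b c w else 0) := by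
    refine Finset.dvd_sum fun w _ => ?_
    rcases hdeg w with h | h
    · have h2 : (R.σ ^ 2) (b w) = (R.σ ^ 0) (b w) := by
        rw [← h, orb_deg R b hb]
        rfl
      rw [if_neg (by omega), h, Finset.sum_range_succ, Finset.sum_range_succ,
        Finset.sum_range_zero, zero_add, hs, hs, h2, sub_zero]
      show (4 : ℤ) ∣ Sign_u _ (ψ ((R.σ ^ 1) (b w))) + Sign_u (ψ ((R.σ ^ 1) (b w))) _
      rw [Sign_anti]
      exact dvd_zero _
    · have h2 : (R.σ ^ 3) (b w) = (R.σ ^ 0) (b w) := by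
        rw [← h, orb_deg R b hb]
        rfl
      rw [if_pos h, h, Finset.sum_range_succ, Finset.sum_range_succ, Finset.sum_range_succ,
        Finset.sum_range_zero, zero_add, hs, hs, hs]
      show (4 : ℤ) ∣ Sign_u (ψ ((R.σ ^ 0) (b w))) (ψ ((R.σ ^ 1) (b w))) +
        Sign_u (ψ ((R.σ ^ 1) (b w))) (ψ ((R.σ ^ 2) (b w))) +
        Sign_u (ψ ((R.σ ^ 2) (b w))) (ψ ((R.σ ^ 3) (b w))) - _
      rw [h2]
      have h3 : ∀ i : ℕ, Sign_cv (c (de ((R.σ ^ i) (b w)))) =
          ψ ((R.σ ^ i) (b w)) + ψ ((R.σ ^ (i + 1)) (b w)) := fun i => by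
        rw [hψ', hψ, hs]
      have h4 : ∀ i : ℕ, c (de ((R.σ ^ i) (b w))) =
          Sign_col (ψ ((R.σ ^ i) (b w)) + ψ ((R.σ ^ (i + 1)) (b w))) := fun i => by
        rw [← h3, Sign_col_cv]
      have h5 : ∀ i : ℕ, ψ ((R.σ ^ i) (b w)) ≠ ψ ((R.σ ^ (i + 1)) (b w)) := by
        intro i h6
        have h7 := h3 i
        rw [h6] at h7
        have h8 : ∀ x : ZMod 2 × ZMod 2, x + x = 0 := by decide
        rw [h8] at h7
        exact Sign_cv_ne _ h7
      have h6 := h5 2
      have h7 : sgw R b c w = Sign_s (ψ ((R.σ ^ 0) (b w))) (ψ ((R.σ ^ 1) (b w)))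
          (ψ ((R.σ ^ 2) (b w))) := by
        have h8 := h4 2
        have h9 : (R.σ ^ (2 + 1)) (b w) = (R.σ ^ 0) (b w) := h2
        rw [h9] at h8
        rw [sgw, if_pos h, h4 0, h4 1, h8]
        rfl
      have h9 : (R.σ ^ (2 + 1)) (b w) = (R.σ ^ 0) (b w) := h2
      rw [h9] at h6
      rw [h7]
      exact Int.dvd_of_emod_eq_zero (Sign_cyc _ _ _ (h5 0) (h5 1) h6)
  rw [Finset.sum_sub_distrib, h0, zero_sub] at h1
  exact (dvd_neg.1 h1)

private theorem Sign_prod (s : V → ℤ) (hs : ∀ w, s w = 1 ∨ s w = -1) (A : Finset V) :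
    (4 : ℤ) ∣ ∏ w ∈ A, s w - (1 + ∑ w ∈ A, (s w - 1)) ∧
      (∏ w ∈ A, s w = 1 ∨ ∏ w ∈ A, s w = -1) := by
  induction A using Finset.induction_on with
  | empty => simp
  | insert a A ha ih =>
    rw [Finset.prod_insert ha, Finset.sum_insert ha]
    obtain ⟨h1, h2⟩ := ih
    rcases hs a with h | h
    · rw [h]
      refine ⟨?_, by simpa using h2⟩
      have h3 : (1 : ℤ) * ∏ w ∈ A, s w - (1 + (1 - 1 + ∑ w ∈ A, (s w - 1))) =
        ∏ w ∈ A, s w - (1 + ∑ w ∈ A, (s w - 1)) := by ring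
      rw [h3]
      exact h1
    · rw [h]
      constructor
      · rcases h2 with h3 | h3
        · rw [h3] at h1 ⊢
          omega
        · rw [h3] at h1 ⊢
          omega
      · rcases h2 with h3 | h3
        · rw [h3]
          right
          norm_num
        · rw [h3]
          left
          norm_num

/-- The product of the signs is the same for all Tait colourings. -/
theorem exists_sign (R : Rot G) (hG : G.Connected) (hP : R.Planar)
    (hdeg : ∀ v, G.degree v = 2 ∨ G.degree v = 3) (b : V → G.Dart) (hb : ∀ w, (b w).fst = w) :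
    ∃ s : ℤ, (s = 1 ∨ s = -1) ∧
      ∀ c : G.edgeSet → Fin 3, Tait c → ∏ w, sgw R b c w = s := by
  have h1 : ∀ c : G.edgeSet → Fin 3, Tait c → ∀ w, sgw R b c w = 1 ∨ sgw R b c w = -1 := by
    intro c hc w
    rw [sgw]
    split_ifs with h
    · exact Sign_eps _ _ _ (tait_three R b hb hc h (by omega) (by omega) (by omega))
        (tait_three R b hb hc h (by omega) (by omega) (by omega))
        (tait_three R b hb hc h (by omega) (by omega) (by omega))
    · exact Or.inl rfl
  have h2 : ∀ c : G.edgeSet → Fin 3, Tait c →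
      (4 : ℤ) ∣ ∏ w, sgw R b c w - (1 - ∑ w : V, if G.degree w = 3 then 1 else 0) := by
    intro c hc
    have h3 := (Sign_prod (sgw R b c) (h1 c hc) Finset.univ).1
    have h4 := Sign_sum R hG hP hdeg b hb hc
    have h5 : ∑ w, (sgw R b c w - 1) = (∑ w, if G.degree w = 3 then sgw R b c w else 0) -
        ∑ w : V, if G.degree w = 3 then (1 : ℤ) else 0 := by
      rw [← Finset.sum_sub_distrib]
      refine Finset.sum_congr rfl fun w _ => ?_
      split_ifs with h
      · rfl
      · rw [sgw, if_neg h]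
        norm_num
    rw [h5] at h3
    omega
  by_cases hex : ∃ c : G.edgeSet → Fin 3, Tait c
  · obtain ⟨c0, hc0⟩ := hex
    refine ⟨∏ w, sgw R b c0 w, (Sign_prod _ (h1 c0 hc0) Finset.univ).2, fun c hc => ?_⟩
    have h3 := (Sign_prod _ (h1 c0 hc0) Finset.univ).2
    have h4 := (Sign_prod _ (h1 c hc) Finset.univ).2
    have h5 := h2 c hc
    have h6 := h2 c0 hc0
    omega
  · exact ⟨1, Or.inl rfl, fun c hc => absurd ⟨c, hc⟩ hex⟩

end Pool.Agent.Helper31.AH
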