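import Pool.Agent.Helper31.AH.Defs

/-!
# Project AH: numbering of the darts

`base R w` is a dart starting at `w`; the darts starting at `w` are `σ ^ i (base R w)`, `i < degree w`. `theta` describes the incidences.
-/

set_option autoImplicit false

namespace Pool.Agent.Helper31.AH

variable {V : Type} [Fintype V] [DecidableEq V] {G : SimpleGraph V} [DecidableRel G.Adj]

theorem exists_base (hdeg : ∀ v, G.degree v = 2 ∨ G.degree v = 3) (w : V) :
    ∃ d : G.Dart, d.fst = w := by
  have h1 := G.dart_fst_fiber_card_eq_degree w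
  have h2 : 0 < (Finset.univ.filter fun d : G.Dart => d.fst = w).card := by
    rcases hdeg w with h | h <;> omega
  obtain ⟨d, hd⟩ := Finset.card_pos.1 h2
  exact ⟨d, (Finset.mem_filter.1 hd).2⟩

theorem pow_fst (R : Rot G) (i : ℕ) (d : G.Dart) : ((R.σ ^ i) d).fst = d.fst := by
  induction i with
  | zero => rfl
  | succ i ih => rw [pow_succ', Equiv.Perm.mul_apply, R.fst_eq, ih]

/-- Every dart at `w` is a power of `σ` applied to a given one, with a small exponent. -/
theorem exists_pow (R : Rot G) {d d' : G.Dart} (h : d.fst = d'.fst) :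
    ∃ i < G.degree d.fst, (R.σ ^ i) d = d' := by
  classical
  obtain ⟨j, hj⟩ := (R.cyc d d' h).exists_nat_pow_eq
  set p := Function.minimalPeriod R.σ d with hp
  have hper : d ∈ Function.periodicPts R.σ := by
    obtain ⟨m, hm, hm'⟩ := isOfFinOrder_iff_pow_eq_one.1 (isOfFinOrder_of_finite R.σ)
    refine ⟨m, hm, ?_⟩
    show R.σ^[m] d = d
    rw [Equiv.Perm.iterate_eq_pow, hm']
    rfl
  have hp0 : 0 < p := Function.minimalPeriod_pos_of_mem_periodicPts hper
  have hple : p ≤ G.degree d.fst := by
    rw [← G.dart_fst_fiber_card_eq_degree d.fst, ← Finset.card_range p]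
    apply Finset.card_le_card_of_injOn (fun i => R.σ^[i] d)
    · intro i _
      rw [Finset.mem_coe, Finset.mem_filter]
      refine ⟨Finset.mem_univ _, ?_⟩
      show (R.σ^[i] d).fst = d.fst
      rw [Equiv.Perm.iterate_eq_pow]
      exact pow_fst R i d
    · intro i hi j hj' hij
      have h1 : i < p := Finset.mem_range.1 hi
      have h2 : j < p := Finset.mem_range.1 hj'
      exact Function.iterate_injOn_Iio_minimalPeriod h1 h2 hij
  refine ⟨j % p, lt_of_lt_of_le (Nat.mod_lt _ hp0) hple, ?_⟩
  rw [← hj, ← Equiv.Perm.iterate_eq_pow, ← Equiv.Perm.iterate_eq_pow]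
  exact Function.iterate_mod_minimalPeriod_eq

/-- The incidences of a graph with a rotation system. -/
theorem exists_theta (R : Rot G) (hdeg : ∀ v, G.degree v = 2 ∨ G.degree v = 3) :
    ∃ (b : V → G.Dart) (θ : (Σ w : V, Fin (G.degree w)) ≃ G.edgeSet × Bool),
      (∀ w, (b w).fst = w) ∧ ∀ w (i : Fin (G.degree w)), (θ ⟨w, i⟩).1 = de ((R.σ ^ (i : ℕ)) (b w)) := by
  classical
  choose b hb using exists_base hdeg
  set F : (Σ w : V, Fin (G.degree w)) → G.Dart := fun x => (R.σ ^ (x.2 : ℕ)) (b x.1) with hF
  have hFs : Function.Surjective F := by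
    intro d
    obtain ⟨i, hi, hd⟩ := exists_pow R (hb d.fst)
    rw [hb] at hi
    exact ⟨⟨d.fst, ⟨i, hi⟩⟩, hd⟩
  have hFb : Function.Bijective F := by
    rw [Fintype.bijective_iff_surjective_and_card]
    refine ⟨hFs, ?_⟩
    rw [Fintype.card_sigma, G.dart_card_eq_sum_degrees]
    exact Finset.sum_congr rfl fun v _ => Fintype.card_fin _
  have hr : ∀ e : G.edgeSet, ∃ d : G.Dart, de d = e := by
    rintro ⟨e, he⟩
    induction e with
    | h u v => exact ⟨⟨(u, v), he⟩, rfl⟩
  choose r hr using hr
  set H : G.edgeSet × Bool → G.Dart := fun y => if y.2 then r y.1 else (r y.1).symm with hH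
  have hHe : ∀ y, de (H y) = y.1 := by
    rintro ⟨e, b'⟩
    cases b'
    · show de (r e).symm = e
      have h1 : de (r e).symm = de (r e) := Subtype.ext (SimpleGraph.Dart.edge_symm _)
      rw [h1, hr]
    · exact hr e
  have hHs : Function.Surjective H := by
    intro d
    have h1 : (r (de d)).edge = d.edge := congrArg Subtype.val (hr (de d))
    rcases (SimpleGraph.dart_edge_eq_iff _ _).1 h1 with h2 | h2
    · exact ⟨(de d, true), h2⟩
    · refine ⟨(de d, false), ?_⟩
      show (r (de d)).symm = d
      rw [h2, SimpleGraph.Dart.symm_symm]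
  have hHb : Function.Bijective H := by
    rw [Fintype.bijective_iff_surjective_and_card]
    refine ⟨hHs, ?_⟩
    rw [Fintype.card_prod, Fintype.card_bool, G.dart_card_eq_twice_card_edges,
      SimpleGraph.edgeFinset_card, mul_comm]
  refine ⟨b, (Equiv.ofBijective F hFb).trans (Equiv.ofBijective H hHb).symm, hb, ?_⟩
  intro w i
  rw [← hHe]
  congr 1
  exact (Equiv.ofBijective H hHb).apply_symm_apply _

end Pool.Agent.Helper31.AH
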